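import Mathlib
import Pool.Agent.H512DC.Sym

/-!
# Acyclic limits of disjoint plane continua have symmetric span zero
-/

set_option autoImplicit false

open Set Topology

namespace Pool.Agent.Results.MP_264a2e_gt.SymmetricSpanZero

open Pool.Agent.H512DC

/-- **Theorem.** Let `M 0, M 1, ...` be pairwise disjoint plane continua which converge
homeomorphically to a plane continuum `K`.  Suppose that every continuous function from `K` to the
nonzero complex numbers has a continuous logarithm (for instance, that `K` is tree-like, that is,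
has fine finite open covers with a tree as nerve).  Then `K` has symmetric span zero: every
continuum `Z ⊆ K × K` which contains `(A, B)` and `(B, A)` for some `A, B` meets the diagonal. -/
theorem result (M : ℕ → Set E) (K : Set E) (_hM : ∀ i, IsCompact (M i) ∧ IsConnected (M i))
    (hdis : Pairwise (fun i j => Disjoint (M i) (M j))) (hK : IsCompact K) (hKc : IsConnected K)
    (hconv : ∃ h : ∀ i, ↥(M i) ≃ₜ ↥K, ∀ ε > (0 : ℝ), ∃ N : ℕ, ∀ j > N, ∀ x : ↥(M j),
      dist ((h j x : ↥K) : E) (x : E) < ε)
    (hlog : LP K ∨ TreeLikeM K) :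
    ∀ Z : Set (E × E), Z ⊆ K ×ˢ K → IsConnected Z → IsCompact Z →
      ∀ A B : E, (A, B) ∈ Z → (B, A) ∈ Z → ∃ x, (x, x) ∈ Z := by
  intro Z hZK hZ hk A B h1 h2
  have hc : CompactSpace K := isCompact_iff_compactSpace.1 hK
  have hLP : LP K := by
    rcases hlog with h | h
    · exact h
    · exact LP_of_tree h
  obtain ⟨h, hh⟩ := hconv
  refine sym_zero_sub hK hKc hLP (base := Subtype.val) continuous_subtype_val
    Subtype.val_injective ?_ hZK hZ hk h1 h2
  intro δ hδ
  obtain ⟨N, hN⟩ := hh δ hδ
  have hclose : ∀ j > N, ∀ x : K, dist (((h j).symm x : M j) : E) (x : E) ≤ δ := by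
    intro j hj x
    have := hN j hj ((h j).symm x)
    rw [Homeomorph.apply_symm_apply, dist_comm] at this
    exact this.le
  refine ⟨fun x => (((h (N + 1)).symm x : M (N + 1)) : E),
    fun x => (((h (N + 2)).symm x : M (N + 2)) : E), ?_, ?_, ?_, hclose _ (by omega),
    hclose _ (by omega)⟩
  · exact continuous_subtype_val.comp (h (N + 1)).symm.continuous
  · exact continuous_subtype_val.comp (h (N + 2)).symm.continuous
  · intro x y hxy
    have hd := hdis (show N + 1 ≠ N + 2 by omega)
    refine Set.disjoint_left.1 hd ((h (N + 1)).symm x).2 ?_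
    have e : (((h (N + 1)).symm x : M (N + 1)) : E) = (((h (N + 2)).symm y : M (N + 2)) : E) := hxy
    rw [e]
    exact ((h (N + 2)).symm y).2

end Pool.Agent.Results.MP_264a2e_gt.SymmetricSpanZero
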